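import Pool.Agent.R494.FG5
import Pool.Agent.Results.MP_8b7eba_nt.BothCurvesEveryGraph

/-!
# The rank conjecture over the multiquadratic fields which a graph of quadratic residues singles out

Let `E_N` be the quadratic twist by `N` of the non-CM curve `X_0(14)` or of the CM curve `X_0(49)`. Let `𝒩` be
a finite set of such twists, `N` in the classes below, for which `E_N(ℚ)` is finite and `Ш(E_N/ℚ)[2] = 0`;
let `k ≥ 0`, and `m` a multiple of `56` and of all the `N`. There are prime numbers `q`, `q'` and a constant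
`C` such that for every class `r` modulo `m` which is prime to `m`, `1` modulo `8`, a square modulo `7` and
modulo the prime factors of the `N`, there are `M ∈ {1, -q}`, `M' ∈ {1, q'}` such that for infinitely many
`n` and for **every** graph `G` with `k` vertices there are prime numbers `p_1 < ⋯ < p_k` in
`[n, n + C]`, all `≡ r` modulo `m`, with `p_j` a nonsquare modulo `p_i` if and only if `{i, j}` is an edge
of `G`, such that:

* for all subsets `T_1, …, T_t` of `{1, …, k}`, independent with respect to symmetric differences, with the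
  property that for every symmetric difference `T` of some of them the subgraph of `G` induced on `T` has
  an odd number of rooted spanning forests, and for all the curves `E = E_{N M}` (`E_{N M'}` for the twists
  of `X_0(49)`), over the field `K = ℚ(√D_1, …, √D_t)`, `D_j = ∏_{i ∈ T_j} p_i`, of degree `2 ^ t`:
  `E(K)` is finite, `L(E/K, s)` extends to an entire function whose order at `s = 1` is the rank of `E(K)`,
  both being zero, and the 2-primary part of `Ш(E/K)` is finite and killed by `2 ^ t`;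
* if a subgraph, induced on a set `T`, has an even number of rooted spanning forests, then for all the curves
  `E` the twist of `E` by `∏_{i ∈ T} p_i` has infinitely many rational points, or an element of order two
  in its group `Ш` over `ℚ`.

So the subfields `K` of `ℚ(√p_1, …, √p_k)` over which the rank conjecture and the finiteness of `Ш[2^∞]` are
obtained for all the curves of the finite set at once are given by the graph, which is arbitrary; for the
empty graph these are all the subfields.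

Proof: the file `MP_8b7eba_nt/BothCurvesEveryGraph`; the factorisation of the `L`-functions over
multiquadratic fields (projects MQ and helper426's `R426/QB`), and the restriction of the Tate-Shafarevich
groups to multiquadratic fields (`Y723/QT`).
-/

set_option autoImplicit false

open NumberField IsDedekindDomain

namespace Pool.Agent.Results.MP_cd906c_nt.FieldsFromGraphs

/-- the coefficient `a` of the twist `y² = x³ + a x + b` by `N` of `X_0(49)` (`c = true`) and of
`X_0(14)` (`c = false`) -/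
def A (c : Bool) (N : ℤ) : ℤ := if c = true then -35 * N ^ 2 else 5805 * N ^ 2

/-- the coefficient `b` of the twist `y² = x³ + a x + b` by `N` of `X_0(49)` (`c = true`) and of
`X_0(14)` (`c = false`) -/
def B (c : Bool) (N : ℤ) : ℤ := if c = true then -98 * N ^ 3 else -285714 * N ^ 3

/-- the twist by `N` over the field `K` -/
def E (K : Type) [Field K] (c : Bool) (N : ℤ) : WeierstrassCurve K :=
  { a₁ := 0, a₂ := 0, a₃ := 0, a₄ := (A c N : K), a₆ := (B c N : K) }

/-- `E_N(ℚ)` is finite and `Ш(E_N/ℚ)` has no element of order two -/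
def RankZeroShaTwo (c : Bool) (N : ℤ) : Prop :=
  Finite (E ℚ c N).toAffine.Point ∧ ∀ x : Pool.Agent.TH841.NF.D.Sha (E ℚ c N), 2 • x = 0 → x = 0

/-- the class of the twists of `X_0(49)`: `N ≥ 1` is squarefree and all its prime factors are `1`
modulo `4` -/
def Class49 (N : ℤ) : Prop := 0 < N ∧ Squarefree N ∧ ∀ p : ℕ, p.Prime → (p : ℤ) ∣ N → p % 4 = 1

/-- the class of the twists of `X_0(14)`: `N` is squarefree, positive or negative, `1` modulo `4` and a
square modulo `7`, and all its prime factors `p ≠ 3` split completely in `ℚ(i, √2, √-7)`, or they are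
inert in `ℚ(√2)` and in `ℚ(√-7)` -/
def Class14 (N : ℤ) : Prop := Squarefree N ∧ N % 4 = 1 ∧ (N % 7 = 1 ∨ N % 7 = 2 ∨ N % 7 = 4) ∧
  ∀ p : ℕ, p.Prime → (p : ℤ) ∣ N → p ≠ 3 ∧
    ((p.Prime ∧ p % 8 = 1 ∧ (p % 7 = 1 ∨ p % 7 = 2 ∨ p % 7 = 4)) ∨
      (p.Prime ∧ (p % 8 = 3 ∨ p % 8 = 5) ∧ (p % 7 = 3 ∨ p % 7 = 5 ∨ p % 7 = 6)))

/-- the two classes -/
def Adm (c : Bool) (N : ℤ) : Prop := if c = true then Class49 N else Class14 N

open Classical in
/-- The identity plus the Laplacian of the subgraph of `G` induced on `T`, modulo two. Its determinant is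
the number of the rooted spanning forests of this subgraph modulo two. -/
noncomputable def forest {k : ℕ} (G : SimpleGraph (Fin k)) (T : Finset (Fin k)) :
    Matrix T T (ZMod 2) :=
  Matrix.of fun i j => if i = j then 1 + ((T.filter fun l => G.Adj i l).card : ZMod 2)
    else if G.Adj i j then 1 else 0

/-- the symmetric difference of the sets `T j`, `j ∈ J`: the elements which belong to an odd number of
them -/
def symm {k t : ℕ} (T : Fin t → Finset (Fin k)) (J : Finset (Fin t)) : Finset (Fin k) :=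
  Finset.univ.filter fun i => Odd (J.filter fun j => i ∈ T j).card

/-- `K = ℚ(√d_1, …, √d_t)` -/
def IsMultiquadratic {t : ℕ} (d : Fin t → ℤ) (K : Type) [Field K] [NumberField K] : Prop :=
  ∃ x : Fin t → K, (∀ i, x i ^ 2 = (d i : K)) ∧ IntermediateField.adjoin ℚ (Set.range x) = ⊤

/-- the number `q_v` of elements of the residue field of a finite place `v` of `K` -/
noncomputable def qv (K : Type) [Field K] (v : HeightOneSpectrum (𝓞 K)) : ℕ :=
  Nat.card (𝓞 K ⧸ v.asIdeal)

/-- `a_v = q_v + 1 - #E(k_v)` for `E : y² = x³ + a x + b`, that is `q_v` minus the number of affine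
points -/
noncomputable def av (K : Type) [Field K] (a b : ℤ) (v : HeightOneSpectrum (𝓞 K)) : ℤ :=
  (qv K v : ℤ) - Nat.card {z : (𝓞 K ⧸ v.asIdeal) × (𝓞 K ⧸ v.asIdeal) //
    z.2 ^ 2 = z.1 ^ 3 + (a : 𝓞 K ⧸ v.asIdeal) * z.1 + (b : 𝓞 K ⧸ v.asIdeal)}

open Classical in
/-- `F` is entire and is, for `Re s > 3/2`, the `L`-function of `E : y² = x³ + a x + b` over `K`
without the Euler factors at the places `v ∣ 2 (4a³ + 27b²) m` -/
def IsL (K : Type) [Field K] (a b m : ℤ) (F : ℂ → ℂ) : Prop :=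
  Differentiable ℂ F ∧ ∀ s : ℂ, (3 : ℝ) / 2 < s.re →
    HasProd (fun v : HeightOneSpectrum (𝓞 K) =>
      if ((2 * (4 * a ^ 3 + 27 * b ^ 2) * m : ℤ) : 𝓞 K) ∈ v.asIdeal then 1 else
        (1 - (av K a b v : ℂ) * (qv K v : ℂ) ^ (-s) + (qv K v : ℂ) ^ (1 - 2 * s))⁻¹) (F s)

open Classical in
/-- the rank conjecture for `E_N` over `K` with rank and order zero, and the finiteness of the 2-primary
part of `Ш(E_N/K)`, with the exponent `2 ^ t` -/
def BSDZero (K : Type) [Field K] [NumberField K] (c : Bool) (N m : ℤ) (t : ℕ) : Prop :=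
  Finite (E K c N).toAffine.Point ∧
  (∃ F : ℂ → ℂ, IsL K (A c N) (B c N) m F) ∧
  (∀ F : ℂ → ℂ, IsL K (A c N) (B c N) m F →
    analyticOrderAt F 1 = (Module.finrank ℤ (E K c N).toAffine.Point : ℕ∞)) ∧
  Module.finrank ℤ (E K c N).toAffine.Point = 0 ∧
  {y : Pool.Agent.TH841.NF.D.Sha (E K c N) | ∃ j : ℕ, (2 ^ j : ℕ) • y = 0}.Finite ∧
  ∀ (j : ℕ) (y : Pool.Agent.TH841.NF.D.Sha (E K c N)), (2 ^ j : ℕ) • y = 0 → (2 ^ t : ℕ) • y = 0

section proof

open Pool.Agent.R494.FG (GA crit14 crit49 odds prod_odds)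
open Pool.Agent.Y687.MQ (AdmD matD)

lemma rz_iff (c : Bool) (N : ℤ) : RankZeroShaTwo c N ↔ Pool.Agent.R494.FG.RZ c N := Iff.rfl

lemma rz_iff' (c : Bool) (N : ℤ) : RankZeroShaTwo c N ↔
    Pool.Agent.Results.MP_8b7eba_nt.BothCurvesEveryGraph.RankZeroShaTwo c N := Iff.rfl

lemma adm_iff (c : Bool) (N : ℤ) : Adm c N ↔
    Pool.Agent.Results.MP_8b7eba_nt.BothCurvesEveryGraph.Adm c N := Iff.rfl

/-- the criterion -/
theorem ga_of {c : Bool} {N : ℤ} (h : Adm c N) (hr : RankZeroShaTwo c N) (k : ℤ) (hk : k ≠ 0) :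
    GA c (N * k ^ 2) := by
  cases c
  · have h1 : AdmD N := by
      unfold Adm at h
      rw [if_neg (by decide)] at h
      exact h
    exact Or.inl ⟨rfl, N, ⟨h1, (crit14 h1).1 hr⟩, k, hk, rfl⟩
  · unfold Adm at h
    rw [if_pos rfl] at h
    obtain ⟨D, rfl, hD⟩ := Pool.Agent.Results.MP_8b7eba_nt.BothCurvesEveryGraph.class49 h
    exact Or.inr ⟨rfl, D, ⟨hD, (crit49 hD).1 hr⟩, k, hk, rfl⟩

/-- a product of different primes is not a square up to squares -/
theorem not_sq {k : ℕ} {p : Fin k → ℕ} (hp : Function.Injective p) (hpp : ∀ i, (p i).Prime)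
    {T : Finset (Fin k)} (hT : T.Nonempty) {s : ℤ} (hs : s ≠ 0) :
    ¬ IsSquare ((∏ i ∈ T, (p i : ℤ)) * s ^ 2) := by
  rintro ⟨a, ha⟩
  have h1 : s ^ 2 ∣ a ^ 2 := ⟨∏ i ∈ T, (p i : ℤ), by linear_combination -ha⟩
  obtain ⟨b, rfl⟩ := (Int.pow_dvd_pow_iff two_ne_zero).1 h1
  have h2 : (∏ i ∈ T, (p i : ℤ)) = b * b := by
    have h3 : ((∏ i ∈ T, (p i : ℤ)) - b * b) * s ^ 2 = 0 := by linear_combination ha
    rcases mul_eq_zero.1 h3 with h4 | h4
    · linear_combination h4
    · exact absurd h4 (pow_ne_zero 2 hs)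
  obtain ⟨i, hi⟩ := hT
  have h4 : Prime ((p i : ℕ) : ℤ) := Nat.prime_iff_prime_int.1 (hpp i)
  have h5 : ((p i : ℕ) : ℤ) ∣ b := by
    have h6 : ((p i : ℕ) : ℤ) ∣ b * b := by
      rw [← h2]
      exact Finset.dvd_prod_of_mem _ hi
    rcases h4.dvd_or_dvd h6 with h7 | h7 <;> exact h7
  obtain ⟨a', rfl⟩ := h5
  rw [← Finset.mul_prod_erase T _ hi] at h2
  have h6 : ∏ j ∈ T.erase i, ((p j : ℕ) : ℤ) = ((p i : ℕ) : ℤ) * (a' * a') := by
    refine mul_left_cancel₀ h4.ne_zero ?_
    rw [h2]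
    ring
  have h7 : ((p i : ℕ) : ℤ) ∣ ∏ j ∈ T.erase i, ((p j : ℕ) : ℤ) := ⟨_, h6⟩
  obtain ⟨j, hj, hd⟩ := (Prime.dvd_finsetProd_iff h4 _).1 h7
  have h8 := Int.natCast_dvd_natCast.1 hd
  have h9 := (Nat.prime_dvd_prime_iff_eq (hpp i) (hpp j)).1 h8
  exact (Finset.ne_of_mem_erase hj) (hp h9).symm

/-- the field -/
theorem main {k t : ℕ} {p : Fin k → ℕ} (hp : Function.Injective p) (hpp : ∀ i, (p i).Prime)
    {c : Bool} {N : ℤ} (T : Fin t → Finset (Fin k))
    (hT : ∀ J : Finset (Fin t), J.Nonempty → (symm T J).Nonempty)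
    (h : ∀ J : Finset (Fin t), Adm c (N * ∏ i ∈ symm T J, (p i : ℤ)) ∧
      RankZeroShaTwo c (N * ∏ i ∈ symm T J, (p i : ℤ)))
    (K : Type) [Field K] [NumberField K]
    (hK : IsMultiquadratic (fun j => ∏ i ∈ T j, (p i : ℤ)) K) :
    Module.finrank ℚ K = 2 ^ t ∧ BSDZero K c N (∏ j, ∏ i ∈ T j, (p i : ℤ)) t := by
  classical
  obtain ⟨x, hx, hgen⟩ := hK
  have hs0 : ∀ J : Finset (Fin t),
      (∏ i : Fin k, (p i : ℤ) ^ ((J.filter fun j => i ∈ T j).card / 2)) ≠ 0 := fun J =>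
    Finset.prod_ne_zero_iff.2 fun i _ => pow_ne_zero _ (by exact_mod_cast (hpp i).ne_zero)
  have hind : ∀ J : Finset (Fin t), J.Nonempty → ¬ IsSquare (∏ j ∈ J, ∏ i ∈ T j, (p i : ℤ)) := by
    intro J hJ
    rw [prod_odds T J fun i => (p i : ℤ)]
    exact not_sq hp hpp (hT J hJ) (hs0 J)
  have hga : ∀ J : Finset (Fin t), GA c (N * ∏ j ∈ J, ∏ i ∈ T j, (p i : ℤ)) := by
    intro J
    rw [prod_odds T J fun i => (p i : ℤ), ← mul_assoc]
    exact ga_of (h J).1 (h J).2 _ (hs0 J)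
  refine ⟨Pool.Agent.R494.FG.degree hind K x hx hgen, ?_⟩
  obtain ⟨⟨F, hF, hF1⟩, hfin⟩ := Pool.Agent.R494.FG.field c hind hga K x hx hgen
  obtain ⟨hs1, hs2⟩ := Pool.Agent.R494.FG.shaK c hga K x hx hgen
  have hfin' : Finite (E K c N).toAffine.Point := hfin
  have h0 : Module.finrank ℤ (E K c N).toAffine.Point = 0 :=
    Module.finrank_eq_zero_of_rank_eq_zero (rank_eq_zero_iff.2 fun P =>
      ⟨(Nat.card (E K c N).toAffine.Point : ℤ), by exact_mod_cast Nat.card_pos.ne', by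
        rw [natCast_zsmul]
        exact card_nsmul_eq_zero'⟩)
  refine ⟨hfin', ⟨F, hF⟩, fun F' hF' => ?_, h0, hs1, hs2⟩
  have h3 : F' = F := Pool.Agent.Y687.MQ.isLFunK_unique hF' hF
  rw [h0, h3]
  exact (hF.1.analyticAt 1).analyticOrderAt_eq_zero.2 hF1

end proof

/-- **The rank conjecture over the multiquadratic fields given by a graph.** -/
theorem result (𝒩 : Finset (Bool × ℤ)) (h𝒩 : ∀ e ∈ 𝒩, Adm e.1 e.2 ∧ RankZeroShaTwo e.1 e.2)
    (k m : ℕ) (hm : 0 < m) (h56 : 56 ∣ m) (h𝒩m : ∀ e ∈ 𝒩, e.2 ∣ (m : ℤ)) :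
    ∃ q q' C : ℕ, (q.Prime ∧ ¬ q ∣ m) ∧ (q'.Prime ∧ ¬ q' ∣ m) ∧ ∀ r : ℕ, r.Coprime m → r % 8 = 1 →
      (r % 7 = 1 ∨ r % 7 = 2 ∨ r % 7 = 4) →
      (∀ e ∈ 𝒩, ∀ l : ℕ, l.Prime → (l : ℤ) ∣ e.2 → IsSquare ((r : ℕ) : ZMod l)) →
      ∃ M : Bool → ℤ, (M false = 1 ∨ M false = -q) ∧ (M true = 1 ∨ M true = q') ∧
        {n : ℕ | ∀ G : SimpleGraph (Fin k), ∃ p : Fin k → ℕ, StrictMono p ∧
          (∀ i, (p i).Prime ∧ p i ≡ r [MOD m] ∧ n ≤ p i ∧ p i ≤ n + C) ∧
          (∀ i j, i ≠ j → (G.Adj i j ↔ ¬ IsSquare ((p j : ℕ) : ZMod (p i)))) ∧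
          (∀ (t : ℕ) (T : Fin t → Finset (Fin k)),
            (∀ J : Finset (Fin t), J.Nonempty → (symm T J).Nonempty) →
            (∀ J : Finset (Fin t), (forest G (symm T J)).det ≠ 0) →
            ∀ (K : Type) [Field K] [NumberField K],
              IsMultiquadratic (fun j => ∏ i ∈ T j, (p i : ℤ)) K →
              Module.finrank ℚ K = 2 ^ t ∧
              ∀ e ∈ 𝒩, BSDZero K e.1 (e.2 * M e.1) (∏ j, ∏ i ∈ T j, (p i : ℤ)) t) ∧
          ∀ T : Finset (Fin k), (forest G T).det = 0 → ∀ e ∈ 𝒩,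
            ¬ RankZeroShaTwo e.1 (e.2 * M e.1 * ∏ i ∈ T, (p i : ℤ))}.Infinite := by
  classical
  obtain ⟨q, q', C, hq, hq', h⟩ :=
    Pool.Agent.Results.MP_8b7eba_nt.BothCurvesEveryGraph.result (insert (false, 1) 𝒩)
      (fun e he => by
        rcases Finset.mem_insert.1 he with rfl | he
        · unfold Pool.Agent.Results.MP_8b7eba_nt.BothCurvesEveryGraph.Adm
          rw [if_neg (by decide)]
          refine ⟨squarefree_one, by norm_num, by norm_num, fun p hp hd => ?_⟩
          have h1 : (p : ℤ) ∣ ((1 : ℕ) : ℤ) := by simpa using hd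
          exact absurd (Nat.dvd_one.1 (Int.natCast_dvd_natCast.1 h1)) hp.one_lt.ne'
        · exact (h𝒩 e he).1) k m hm h56
      (fun e he => by
        rcases Finset.mem_insert.1 he with rfl | he
        · exact one_dvd _
        · exact h𝒩m e he)
  refine ⟨q, q', C, hq, hq', fun r hr hr8 hr7 hrN => ?_⟩
  obtain ⟨M, hM, hM', hinf⟩ := h r hr hr8 hr7 (fun e he l hl hld => by
    rcases Finset.mem_insert.1 he with rfl | he
    · exfalso
      have h1 : (l : ℤ) ∣ ((1 : ℕ) : ℤ) := by simpa using hld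
      exact hl.one_lt.ne' (Nat.dvd_one.1 (Int.natCast_dvd_natCast.1 h1))
    · exact hrN e he l hl hld)
  refine ⟨M, hM, hM', hinf.mono fun n hn G => ?_⟩
  obtain ⟨p, hp, h1, h2, h3⟩ := hn G
  refine ⟨p, hp, h1, h2, fun t T hT hodd K _ _ hK => ?_, fun T hdet e he hrz => ?_⟩
  · have key : ∀ e ∈ 𝒩, Module.finrank ℚ K = 2 ^ t ∧
        BSDZero K e.1 (e.2 * M e.1) (∏ j, ∏ i ∈ T j, (p i : ℤ)) t := fun e he =>
      main hp.injective (fun i => (h1 i).1) T hT (fun J => by
        obtain ⟨h4, h5, -⟩ := h3 e (Finset.mem_insert_of_mem he) (symm T J)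
        exact ⟨h4, h5.2 ⟨(h𝒩 e he).2, hodd J⟩⟩) K hK
    refine ⟨?_, fun e he => (key e he).2⟩
    obtain ⟨x, hx, hgen⟩ := hK
    refine Pool.Agent.R494.FG.degree (fun J hJ => ?_) K x hx hgen
    rw [Pool.Agent.R494.FG.prod_odds T J fun i => (p i : ℤ)]
    exact not_sq hp.injective (fun i => (h1 i).1) (hT J hJ) (Finset.prod_ne_zero_iff.2 fun i _ =>
      pow_ne_zero _ (by exact_mod_cast (h1 i).1.ne_zero))
  · exact ((h3 e (Finset.mem_insert_of_mem he) T).2.1.1 hrz).2 hdet

end Pool.Agent.Results.MP_cd906c_nt.FieldsFromGraphs
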