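import Pool.Agent.R765.Ga11
import Pool.Agent.R765.Ga12
import Pool.Agent.W189.NF.Main

/-!
# The rank conjecture of Birch and Swinnerton-Dyer over number fields and Gaussian sums over primes

Let `E` be an elliptic curve over a number field `K` such that `L(E/K, s)` extends to an entire function `L`
(the hypothesis of Q1; nothing else is assumed, in particular no functional equation, no condition on the
growth of `L`, no modularity, no Riemann hypothesis and nothing about `#Ш`). For a finite place `v` with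
`Nv` elements in the residue field let `1 - a_v X + e_v X² = (1 - α_v X)(1 - β_v X)` be Mathlib's Euler
polynomial of `E` at `v` (`e_v = Nv` at good places and `0` at bad places) and
`t_k(v) = α_v^k + β_v^k ∈ ℤ`. For real `b` and `T > 0` put

`g_b(T) = (π T)^(-1/2) ∑_{v, k ≥ 1} t_k(v) (log Nv) Nv^(bk) exp (-(log Nv^k)² / (4T))`,

an absolutely convergent series. The following is proved for all `K` and `E` and every real `b > -1`.

(1) UNCONDITIONAL FORMULA FOR THE ANALYTIC RANK. Let `r` be a natural number. Then `ord_{s=1} L(E/K, s) = r` if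
and only if there are finitely many complex numbers `w ≠ 0` with `Re w ≥ 0` and natural numbers `n_w`
with

`exp (-(1 + b)² T) g_b(T) + 2 ∑_w n_w exp (w T) → -2r` as `T → ∞`.

(2) The limit of `exp (-(1 + b)² T) g_b(T)` as `T → ∞` exists if and only if `L(E/K, s) ≠ 0` for all `s ≠ 1` in
the closed region `Re (s + b) > 0`, `Re (s + b)² ≥ (1 + b)²` on the right of a branch of a hyperbola with
vertex `s = 1`, and then the limit is `-2 ord_{s=1} L(E/K, s)`.

(3) For every natural number `r` the following are equivalent: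
* `ord_{s=1} L(E/K, s) = r` and `L(E/K, s) ≠ 0` for `Re s > 1`;
* `exp (-(1 + b)² T) g_b(T) → -2r` for all `b > -1`;
* `exp (-(1 + b)² T) g_b(T) → -2r` for arbitrarily large `b`.

For `r = rk E/K` the left hand side of (1) is the equality of Q1 for `E/K` (last part of the theorem). So Q1
for `E/K` says that the constant term in the asymptotic expansion of the Gaussian sums of the numbers
`t_k(v)` (`= Nv^k + 1 - #E(F_{Nv^k})` at good places) is `-2 rk E/K`; Q1 together with the zero-free half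
plane is the limit formula for arbitrarily large `b`. For `b → -1` the regions in (2) decrease to the
sector `|Im s| ≤ Re s - 1`, for `b → ∞` they increase to the half plane.

Proof. The Laplace transform of `g_b(T)` is `-(L'/L)(√z - b) / √z`, and this function decays like
`exp (-c √|z|)` on the right of every vertical line where it can be continued, whatever the growth of `L`;
so `g_b(T) = -2 ∑_ρ exp ((ρ + b)² T) + O(exp ((c + ε) T))` with the finitely many zeros `ρ` of `L` with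
`Re (ρ + b) > 0`, `Re (ρ + b)² > c`, for every `c > 0`.
-/

set_option autoImplicit false

namespace Pool.Agent.Results.MP_cd906c_nt.GaussianRank

open Filter Topology NumberField IsDedekindDomain

variable {K : Type} [Field K] [NumberField K]

/-- Mathlib's Euler polynomial `1 - a_v X + e_v X²` of `E` at `v`. -/
noncomputable def eulerPoly (E : WeierstrassCurve K) (v : HeightOneSpectrum (𝓞 K)) : Polynomial ℤ :=
  (E.baseChange (v.adicCompletion K)).localPolynomial (v.adicCompletionIntegers K)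

/-- `t_k(v) = α_v^k + β_v^k` where `1 - a_v X + e_v X² = (1 - α_v X)(1 - β_v X)`: the trace of the `k`-th power
of the matrix with rows `(a_v, -e_v)` and `(1, 0)`. -/
noncomputable def traceSum (E : WeierstrassCurve K) (v : HeightOneSpectrum (𝓞 K)) (k : ℕ) : ℤ :=
  ((!![-(eulerPoly E v).coeff 1, -(eulerPoly E v).coeff 2; 1, 0] :
    Matrix (Fin 2) (Fin 2) ℤ) ^ k).trace

/-- The term of `g_b(T)` for the place `v = x.1` and `k = x.2 + 1`, without the factor `(π T)^(-1/2)`: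
`t_k(v) (log Nv) Nv^(bk) exp (-(k log Nv)² / (4T))`. -/
noncomputable def term (E : WeierstrassCurve K) (b T : ℝ) (x : HeightOneSpectrum (𝓞 K) × ℕ) : ℝ :=
  traceSum E x.1 (x.2 + 1) * Real.log (Ideal.absNorm x.1.asIdeal) *
    ((Ideal.absNorm x.1.asIdeal : ℝ) ^ (b * ((x.2 : ℝ) + 1)) *
      Real.exp (-((((x.2 : ℝ) + 1) * Real.log (Ideal.absNorm x.1.asIdeal)) ^ 2 / (4 * T))))

/-- The Gaussian sum `g_b(T)`. -/
noncomputable def gauss (E : WeierstrassCurve K) (b T : ℝ) : ℝ :=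
  (Real.sqrt (Real.pi * T))⁻¹ * ∑' x : HeightOneSpectrum (𝓞 K) × ℕ, term E b T x

open Classical in
/-- The rank of `E(K)`. -/
noncomputable def rank (E : WeierstrassCurve K) : ℕ := Module.finrank ℤ E.toAffine.Point

/-- There are finitely many `w ≠ 0` with `Re w ≥ 0` and natural numbers `n_w` with
`exp (-(1 + b)² T) g_b(T) + 2 ∑_w n_w exp (w T) → -2r` as `T → ∞`. -/
def ConstantTerm (E : WeierstrassCurve K) (b : ℝ) (r : ℕ) : Prop :=
  ∃ (W : Finset ℂ) (n : ℂ → ℕ), (∀ w ∈ W, w ≠ 0 ∧ 0 ≤ w.re) ∧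
    Tendsto (fun T : ℝ => ((Real.exp (-((1 + b) ^ 2 * T)) * gauss E b T : ℝ) : ℂ) +
      2 * ∑ w ∈ W, (n w : ℂ) * Complex.exp (w * T)) atTop (𝓝 (-(2 * r)))

/-- `exp (-(1 + b)² T) g_b(T) → ℓ` as `T → ∞`. -/
def HasLimit (E : WeierstrassCurve K) (b ℓ : ℝ) : Prop :=
  Tendsto (fun T : ℝ => Real.exp (-((1 + b) ^ 2 * T)) * gauss E b T) atTop (𝓝 ℓ)

open Pool.Agent.R765.Ga hiding lamE cE Bd DD_E LEu LEu_deriv
open Pool.Agent.W334.BSD
open Pool.Agent.R765.Ga.X (Nm lamE cE Bd DD_E LEu LEu_deriv)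
open Pool.Agent.H921R2.TatePole (nm two_le_nm nm_summable)
open Pool.Agent.W189.NF

/-- the local data -/
lemma poly_coeff (E : WeierstrassCurve K) (v : HeightOneSpectrum (𝓞 K)) :
    -(eulerPoly E v).coeff 1 = aV E v ∧ (eulerPoly E v).coeff 2 = eV E v := by
  unfold eulerPoly aV eV
  rw [localPolynomial_eq]
  constructor
  · simp [Polynomial.coeff_one, Polynomial.coeff_X_pow]
  · simp only [Polynomial.coeff_add, Polynomial.coeff_sub, Polynomial.coeff_C_mul,
      Polynomial.coeff_one, Polynomial.coeff_X, Polynomial.coeff_X_pow]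
    simp

/-- the companion matrices -/
noncomputable def mat (E : WeierstrassCurve K) (v : HeightOneSpectrum (𝓞 K)) :
    Matrix (Fin 2) (Fin 2) ℂ :=
  !![(aV E v : ℂ), -(eV E v : ℂ); 1, 0]

lemma traceSum_eq (E : WeierstrassCurve K) (v : HeightOneSpectrum (𝓞 K)) (k : ℕ) :
    ((traceSum E v k : ℤ) : ℂ) = (mat E v ^ k).trace := by
  unfold traceSum
  obtain ⟨h1, h2⟩ := poly_coeff E v
  rw [h1, h2]
  have h3 : mat E v = (!![aV E v, -eV E v; 1, 0] : Matrix (Fin 2) (Fin 2) ℤ).map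
      (Int.castRingHom ℂ) := by
    unfold mat
    ext i j
    fin_cases i <;> fin_cases j <;> simp
  rw [h3, ← Matrix.map_pow]
  exact AddMonoidHom.map_trace (Int.castRingHom ℂ) _

lemma hN : Nm (fun v : HeightOneSpectrum (𝓞 K) => nm v) where
  two := two_le_nm
  sum := fun _ hs => nm_summable hs

lemma hM (E : WeierstrassCurve K) : Bd (fun v : HeightOneSpectrum (𝓞 K) => nm v) (mat E) 2 := by
  intro v a ha
  have h1 : (mat E v).charpoly.IsRoot a := (Polynomial.mem_roots'.1 ha).2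
  have h2 : (mat E v).charpoly = Polynomial.X ^ 2 - Polynomial.C (aV E v : ℂ) * Polynomial.X +
      Polynomial.C (eV E v : ℂ) := by
    rw [Matrix.charpoly_fin_two]
    unfold mat
    rw [Matrix.trace_fin_two, Matrix.det_fin_two]
    simp
  rw [h2, Polynomial.IsRoot.def] at h1
  have h3 : a ^ 2 = (aV E v : ℂ) * a - (eV E v : ℂ) := by
    simp only [Polynomial.eval_add, Polynomial.eval_sub, Polynomial.eval_mul,
      Polynomial.eval_pow, Polynomial.eval_X, Polynomial.eval_C] at h1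
    linear_combination h1
  have hq : (2 : ℝ) ≤ (nm v : ℝ) := by exact_mod_cast two_le_nm v
  have ha1 : ‖(aV E v : ℂ)‖ ≤ nm v := by
    rw [Complex.norm_intCast]
    exact_mod_cast aV_le E v
  have he1 : ‖(eV E v : ℂ)‖ ≤ nm v := by
    rw [Complex.norm_intCast]
    exact_mod_cast eV_le E v
  have h4 : ‖a‖ ^ 2 ≤ nm v * ‖a‖ + nm v := by
    rw [← norm_pow, h3]
    refine (norm_sub_le _ _).trans ?_
    rw [norm_mul]
    gcongr
  have h5 : ‖a‖ ≤ (nm v : ℝ) ^ 2 := by
    by_contra h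
    push Not at h
    have h6 : 0 ≤ ‖a‖ := norm_nonneg a
    nlinarith
  refine h5.trans (le_of_eq ?_)
  norm_cast

lemma det_mat (E : WeierstrassCurve K) (v : HeightOneSpectrum (𝓞 K)) (z : ℂ) :
    (1 - z • mat E v).det = 1 - (aV E v : ℂ) * z + (eV E v : ℂ) * z ^ 2 := by
  unfold mat
  rw [Matrix.det_fin_two]
  simp
  ring

lemma LEu_mat (E : WeierstrassCurve K) {s : ℂ} (hs : 2 < s.re) :
    LEu (fun v : HeightOneSpectrum (𝓞 K) => nm v) (mat E) s = E.LSeries s := by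
  unfold LEu
  rw [← (LSeries_hasProd E hs).2.tprod_eq]
  exact tprod_congr fun v => by rw [det_mat]

lemma L_deriv (E : WeierstrassCurve K) {L : ℂ → ℂ}
    (hLE : ∀ s : ℂ, 2 < s.re → L s = E.LSeries s) {s : ℂ} (hs : 1 + 2 < s.re) :
    HasDerivAt L (-(ser (lamE fun v : HeightOneSpectrum (𝓞 K) => nm v)
      (cE (fun v : HeightOneSpectrum (𝓞 K) => nm v) (mat E)) s * L s)) s ∧ L s ≠ 0 := by
  obtain ⟨h1, h2⟩ := LEu_deriv hN (hM E) hs
  have ho : IsOpen {z : ℂ | 2 < z.re} := isOpen_lt continuous_const Complex.continuous_re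
  have h3 : L =ᶠ[𝓝 s] LEu (fun v : HeightOneSpectrum (𝓞 K) => nm v) (mat E) := by
    filter_upwards [ho.mem_nhds (show 2 < s.re by linarith)] with z hz
    rw [hLE z hz, LEu_mat E hz]
  rw [h3.eq_of_nhds]
  exact ⟨h1.congr_of_eventuallyEq h3, h2⟩

lemma term_eq (E : WeierstrassCurve K) (b T : ℝ) (x : HeightOneSpectrum (𝓞 K) × ℕ) :
    (((Real.sqrt (Real.pi * T))⁻¹ * term E b T x : ℝ) : ℂ) =
      tw (lamE fun v : HeightOneSpectrum (𝓞 K) => nm v)
        (cE (fun v : HeightOneSpectrum (𝓞 K) => nm v) (mat E)) b x *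
      (gker (lamE (fun v : HeightOneSpectrum (𝓞 K) => nm v) x) T : ℂ) := by
  unfold term tw cE lamE gker
  have hp : (0 : ℝ) < (nm x.1 : ℝ) := by
    have : 2 ≤ nm x.1 := two_le_nm x.1
    have : (2 : ℝ) ≤ (nm x.1 : ℝ) := by exact_mod_cast this
    linarith
  have e0 : ((Ideal.absNorm x.1.asIdeal : ℕ) : ℝ) = (nm x.1 : ℝ) := rfl
  have e1 : (nm x.1 : ℝ) ^ (b * ((x.2 : ℝ) + 1)) =
      Real.exp (b * (((x.2 : ℝ) + 1) * Real.log (nm x.1))) := by
    rw [Real.rpow_def_of_pos hp]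
    congr 1
    ring
  rw [e0, e1, ← traceSum_eq, Complex.ofReal_mul, Complex.ofReal_mul, Complex.ofReal_mul,
    Complex.ofReal_mul, Complex.ofReal_div, Complex.ofReal_inv, Complex.ofReal_intCast]
  ring

lemma term_summable (E : WeierstrassCurve K) (b : ℝ) {T : ℝ} (hT : 0 < T) :
    Summable fun x => |term E b T x| := by
  have D := (DD_E hN (hM E)).shift b
  have h1 := (D.sum (1 + 2 + b + 1) (by linarith)).mul_right
    (2 / Real.log 2 * Real.exp (2 * (1 + 2 + b + 1) ^ 2 * T))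
  have h2 : Summable fun x => ‖((((Real.sqrt (Real.pi * T))⁻¹ * term E b T x : ℝ)) : ℂ)‖ := by
    refine Summable.of_nonneg_of_le (fun x => norm_nonneg _) (fun x => ?_) h1
    rw [term_eq]
    exact term_le D (1 + 2 + b + 1) T x
  have hsq : 0 < Real.sqrt (Real.pi * T) := Real.sqrt_pos.2 (by positivity)
  refine (h2.mul_left (Real.sqrt (Real.pi * T))).congr fun x => ?_
  rw [Complex.norm_real, Real.norm_eq_abs, abs_mul, abs_inv, abs_of_pos hsq]
  field_simp

lemma gauss_eq (E : WeierstrassCurve K) (b T : ℝ) : ((gauss E b T : ℝ) : ℂ) =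
    kG (lamE fun v : HeightOneSpectrum (𝓞 K) => nm v)
      (tw (lamE fun v : HeightOneSpectrum (𝓞 K) => nm v)
        (cE (fun v : HeightOneSpectrum (𝓞 K) => nm v) (mat E)) b) T := by
  unfold gauss kG
  rw [← tsum_mul_left, Complex.ofReal_tsum]
  exact tsum_congr fun x => term_eq E b T x

lemma fun_eq (E : WeierstrassCurve K) (b T : ℝ) :
    ((Real.exp (-((1 + b) ^ 2 * T)) * gauss E b T : ℝ) : ℂ) =
    (Real.exp (-((1 + b) ^ 2 * T)) : ℂ) * kG (lamE fun v : HeightOneSpectrum (𝓞 K) => nm v)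
      (tw (lamE fun v : HeightOneSpectrum (𝓞 K) => nm v)
        (cE (fun v : HeightOneSpectrum (𝓞 K) => nm v) (mat E)) b) T := by
  rw [Complex.ofReal_mul, gauss_eq]

lemma hasLimit_iff (E : WeierstrassCurve K) (b ρ : ℝ) : HasLimit E b (-(2 * ρ)) ↔
    Tendsto (fun T : ℝ => (Real.exp (-((1 + b) ^ 2 * T)) : ℂ) *
      kG (lamE fun v : HeightOneSpectrum (𝓞 K) => nm v)
      (tw (lamE fun v : HeightOneSpectrum (𝓞 K) => nm v)
        (cE (fun v : HeightOneSpectrum (𝓞 K) => nm v) (mat E)) b) T) atTop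
        (𝓝 (-(2 * (ρ : ℂ)))) := by
  unfold HasLimit
  simp only [← fun_eq]
  have e : (-(2 * (ρ : ℂ))) = ((-(2 * ρ) : ℝ) : ℂ) := by push_cast; ring
  rw [e]
  exact tendsto_ofReal_iff.symm

/-- **The rank conjecture and Gaussian sums over the places of `K`.** -/
theorem result (K : Type) [Field K] [NumberField K] (E : WeierstrassCurve K) (L : ℂ → ℂ)
    (hL : Differentiable ℂ L) (hLE : ∀ s : ℂ, 2 < s.re → L s = E.LSeries s) :
    (∀ b T : ℝ, 0 < T → Summable fun x => |term E b T x|) ∧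
    (∀ b : ℝ, -1 < b → ∀ r : ℕ, analyticOrderAt L 1 = (r : ℕ∞) ↔ ConstantTerm E b r) ∧
    (∀ b : ℝ, -1 < b →
      ((∃ ℓ : ℝ, HasLimit E b ℓ) ↔ ∀ s : ℂ, s ≠ 1 → 0 < (s + b).re →
        (1 + b) ^ 2 ≤ ((s + b) ^ 2).re → L s ≠ 0) ∧
      ∀ ℓ : ℝ, HasLimit E b ℓ → ∃ r : ℕ, analyticOrderAt L 1 = (r : ℕ∞) ∧ ℓ = -(2 * r)) ∧
    (∀ r : ℕ, List.TFAE [
      analyticOrderAt L 1 = (r : ℕ∞) ∧ ∀ s : ℂ, 1 < s.re → L s ≠ 0,
      ∀ b : ℝ, -1 < b → HasLimit E b (-(2 * r)),
      ∀ b₀ : ℝ, ∃ b : ℝ, b₀ ≤ b ∧ -1 < b ∧ HasLimit E b (-(2 * r))]) ∧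
    ∀ b : ℝ, -1 < b → (analyticOrderAt L 1 = (rank E : ℕ∞) ↔ ConstantTerm E b (rank E)) := by
  have D := DD_E hN (hM E)
  have hLd : ∀ s : ℂ, 1 + 2 < s.re → _ := fun s hs => L_deriv E hLE hs
  have h2 : ∀ b : ℝ, -1 < b → ∀ r : ℕ, analyticOrderAt L 1 = (r : ℕ∞) ↔ ConstantTerm E b r := by
    intro b hb r
    have := order_iff D hLd hL hb r
    unfold ConstantTerm
    simp only [fun_eq]
    exact this
  have h3 : ∀ b : ℝ, -1 < b → ∀ ℓ : ℝ, HasLimit E b ℓ →
      (∃ r : ℕ, analyticOrderAt L 1 = (r : ℕ∞) ∧ ℓ = -(2 * r)) ∧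
      ∀ s : ℂ, s ≠ 1 → 0 < (s + b).re → (1 + b) ^ 2 ≤ ((s + b) ^ 2).re → L s ≠ 0 := by
    intro b hb ℓ hℓ
    have e : ℓ = -(2 * (-(ℓ / 2))) := by ring
    rw [e] at hℓ
    obtain ⟨⟨r, k1, k2⟩, k3⟩ := (limit_iff D hLd hL hb _).1 ((hasLimit_iff E b _).1 hℓ)
    refine ⟨⟨r, k2, ?_⟩, k3⟩
    have k4 : -(ℓ / 2) = (r : ℝ) := by exact_mod_cast k1
    linarith
  have h4 : ∀ b : ℝ, -1 < b → (∀ s : ℂ, s ≠ 1 → 0 < (s + b).re →
      (1 + b) ^ 2 ≤ ((s + b) ^ 2).re → L s ≠ 0) → ∃ ℓ : ℝ, HasLimit E b ℓ := by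
    intro b hb hz
    have hne : analyticOrderAt L 1 ≠ ⊤ := by
      intro htop
      have h5 : AnalyticOnNhd ℂ L Set.univ := fun z _ => hL.analyticAt z
      have h6 : L =ᶠ[𝓝 1] 0 := analyticOrderAt_eq_top.1 htop
      have h7 := h5.eqOn_of_preconnected_of_eventuallyEq (g := 0) (fun z _ => analyticAt_const)
        isPreconnected_univ (Set.mem_univ 1) h6
      exact (hLd 4 (by norm_num)).2 (h7 (Set.mem_univ _))
    obtain ⟨r, hr⟩ := ENat.ne_top_iff_exists.1 hne
    refine ⟨-(2 * (r : ℝ)), (hasLimit_iff E b r).2 ?_⟩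
    exact (limit_iff D hLd hL hb _).2 ⟨⟨r, by push_cast; rfl, hr.symm⟩, hz⟩
  refine ⟨fun b T hT => term_summable E b hT, h2, fun b hb => ⟨⟨fun ⟨ℓ, hℓ⟩ => (h3 b hb ℓ hℓ).2,
    h4 b hb⟩, fun ℓ hℓ => (h3 b hb ℓ hℓ).1⟩, fun r => ?_, fun b hb => h2 b hb _⟩
  obtain ⟨k1, k2⟩ := half_iff D hLd hL r
  have e : ∀ b : ℝ, HasLimit E b (-(2 * r)) ↔ _ := fun b => hasLimit_iff E b r
  tfae_have 1 → 2 := by
    intro h b hb
    refine (e b).2 ?_
    have := k1 h b hb
    exact_mod_cast this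
  tfae_have 2 → 3 := by
    intro h b₀
    exact ⟨max b₀ 0, le_max_left _ _, lt_of_lt_of_le (by norm_num) (le_max_right _ _),
      h _ (lt_of_lt_of_le (by norm_num) (le_max_right _ _))⟩
  tfae_have 3 → 1 := by
    intro h
    refine k2 fun B => ?_
    obtain ⟨b, hb, hb1, hb2⟩ := h B
    refine ⟨b, hb, hb1, ?_⟩
    have := (e b).1 hb2
    exact_mod_cast this
  tfae_finish

end Pool.Agent.Results.MP_cd906c_nt.GaussianRank
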