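import Pool.Agent.R426.QJ.Fin
import Pool.Agent.R426.QM.Lf2
import Pool.Agent.R426.QM.Split
import Pool.Agent.R426.QM.Tr
import Pool.Agent.R426.QM.Cls
import Pool.Agent.R426.QM.Fin
import Pool.Agent.R426.QM.FS
import Pool.Agent.R426.QM.ShF

/-!
# The rank conjecture of Birch and Swinnerton-Dyer over the multiquadratic extensions of `ℚ(√-7)`

Let `K = ℚ(√-7)`, and let `E_D` be the quadratic twist by `D` of the curve
`y² + x y = x³ - x² - 2 x - 1` of conductor `49`, where `D` is any squarefree integer of `K` that is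
congruent to `1` modulo `4` and prime to `√-7`. Let `L = K(√d_1, …, √d_n)` be an extension of degree `2 ^ n`,
where `d_1, …, d_n` are integers of this kind. We prove:

* Let `D` be prime to the `d_i`. If for all `2 ^ n` twists `E_N` of `E_D` by the products of some of the
  `d_i` the group `E_N(K)` is finite and `Ш(E_N/K)` has no element of order two, then `E_D(L)` is finite, the
  `L`-series of `E_D` over `L` continues to a meromorphic function on the complex plane, and the order
  at `s = 1` of this function is zero, which is the rank of `E_D(L)`. The `L`-series times finitely many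
  Euler polynomials is entire and not zero at `1`. Moreover the 2-primary part of `Ш(E_D/L)` is finite
  and killed by `2 ^ n`. The hypothesis is on the algebraic side only (a 2-converse theorem over `L`);
  nothing is assumed on the `L`-functions.
* This hypothesis holds for a proportion of exactly `c2 ^ (2 ^ n)` of the `D` prime to the `d_i`, ordered
  by the norm, where `c2 = ∏_{i ≥ 1} (1 - 2^(-i)) = 0.288...`, and for at least `δ X` of the `D` of norm at
  most `X`, for a constant `δ > 0`: a positive proportion of all the quadratic twists over `K`. So the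
  conditions for the `2 ^ n` twists are independent.

Proof. Over `K` the criterion is `MP_e996df_nt/TwoPartTwistsX49` (values of elliptic functions at the
division points, descent). The Euler factors over `L` come from the splitting of the primes of `K` in
`L` and the numbers of points over the residue fields; the points and the Tate-Shafarevich group from
corestriction to `K`. The proportion is computed in `Pool/Agent/R426/QJ`: quadratic reciprocity in `K`,
bilinear sums of the quadratic symbols over `K`, a decomposition into boxes in which the symbols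
of the large primes are equidistributed, and the joint moments of the numbers of the elements of the
kernels of the `2 ^ n` random matrices over `𝔽₂`, which differ by fixed blocks.
-/

set_option autoImplicit false

namespace Pool.Agent.Results.MP_cd906c_nt.MultiquadraticX49

open NumberField IsDedekindDomain
open Pool.Agent.TH841.NF.D (Sha)

/-- The quadratic twist by `D` of the curve `y² + x y = x³ - x² - 2 x - 1` of conductor `49`. -/
noncomputable def curve {K : Type} [Field K] (D : K) : WeierstrassCurve K :=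
  ⟨1, -(3 * D + 1) / 4, 0, -2 * D ^ 2, -D ^ 3⟩

/-- The conditions on `D`: it is a squarefree integer of `K = ℚ(√-7)`, congruent to `1` modulo `4` and
prime to `√-7 = 2 a - 1`. -/
def InClass {K : Type} [Field K] (a D : 𝓞 K) : Prop :=
  Squarefree D ∧ (4 : 𝓞 K) ∣ D - 1 ∧ ¬ (2 * a - 1) ∣ D

/-- The group `E(K)` is finite and `Ш(E/K)` has no element of order two. -/
def NoSelmer {K : Type} [Field K] [NumberField K] (E : WeierstrassCurve K) : Prop :=
  Finite E.toAffine.Point ∧ ∀ x : Sha E, 2 • x = 0 → x = 0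

/-- The `D` of norm at most `X` that satisfy the conditions and are prime to all the `d i`. -/
def family {K : Type} [Field K] [NumberField K] (a : 𝓞 K) {n : ℕ} (d : Fin n → 𝓞 K) (X : ℕ) :
    Set (𝓞 K) :=
  {D | Ideal.absNorm (Ideal.span {D}) ≤ X ∧ InClass a D ∧ ∀ i, IsCoprime D (d i)}

/-- `NoSelmer` for the twists by all the `N` in the class that are `D` times a product of some of the
`d i`, up to squares. -/
def AllNoSelmer {K : Type} [Field K] [NumberField K] (a : 𝓞 K) {n : ℕ} (d : Fin n → 𝓞 K)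
    (D : 𝓞 K) : Prop :=
  ∀ (T : Finset (Fin n)) (N c : 𝓞 K), InClass a N → c ≠ 0 → D * ∏ i ∈ T, d i = N * c ^ 2 →
    NoSelmer (curve (N : K))

/-- `F` is a meromorphic continuation to the complex plane of the L-series of `E` over `L`. -/
def IsContinuation {L : Type} [Field L] [NumberField L] (E : WeierstrassCurve L) (F : ℂ → ℂ) :
    Prop :=
  (∀ s : ℂ, MeromorphicAt F s) ∧ ∀ s : ℂ, 2 < s.re →
    LSeriesSummable ((fun n : ℤ => (n : ℂ)) ∘ E.LFunction) s ∧ F s = E.LSeries s

/-- The rank conjecture for `E` over `L`: the L-series has a meromorphic continuation to the complex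
plane, and the order of each continuation at `s = 1` is the rank of `E(L)`. -/
def RankConjecture {L : Type} [Field L] [NumberField L] (E : WeierstrassCurve L) : Prop :=
  open scoped Classical in
  (∃ F : ℂ → ℂ, IsContinuation E F) ∧ ∀ F : ℂ → ℂ, IsContinuation E F →
    meromorphicOrderAt F 1 = ((Module.finrank ℤ E.toAffine.Point : ℕ) : ℤ)

/-- Mathlib's Euler polynomial of `E` at the place `v`, at the point `q_v ^ (-s)`. -/
noncomputable def eulerPoly {L : Type} [Field L] [NumberField L] (E : WeierstrassCurve L)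
    (v : HeightOneSpectrum (𝓞 L)) (s : ℂ) : ℂ :=
  (((E.baseChange (v.adicCompletion L)).localPolynomial (v.adicCompletionIntegers L)).map
    (Int.castRingHom ℂ)).eval ((Ideal.absNorm v.asIdeal : ℂ) ^ (-s))

/-- The product of the L-series of `E` and of the Euler polynomials at the places that divide `M` extends
to an entire function that is not zero at `1`. -/
def EntirePart {L : Type} [Field L] [NumberField L] (E : WeierstrassCurve L) (M : 𝓞 L) : Prop :=
  ∃ (F : ℂ → ℂ) (S : Finset (HeightOneSpectrum (𝓞 L))), Differentiable ℂ F ∧ F 1 ≠ 0 ∧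
    (∀ v, v ∈ S ↔ M ∈ v.asIdeal) ∧
    ∀ s : ℂ, 2 < s.re → F s = E.LSeries s * ∏ v ∈ S, eulerPoly E v s

/-- The 2-primary part of `Ш(E/L)` is finite and killed by `2 ^ n`. -/
def ShaBound {L : Type} [Field L] [NumberField L] (E : WeierstrassCurve L) (n : ℕ) : Prop :=
  {y : Sha E | ∃ k : ℕ, 2 ^ k • y = 0}.Finite ∧ ∀ (k : ℕ) (y : Sha E), 2 ^ k • y = 0 → 2 ^ n • y = 0

/-- The statement for a curve `E` over an extension `L` of `K` of degree `2 ^ n`: the group `E(L)` is
finite, the rank conjecture, the entire part of the L-series away from `M`, and the 2-primary part of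
`Ш(E/L)`. -/
def Conclusion (K : Type) [Field K] {L : Type} [Field L] [NumberField L] [Algebra K L] (n : ℕ)
    (M : 𝓞 L) (E : WeierstrassCurve L) : Prop :=
  Module.finrank K L = 2 ^ n ∧ Finite E.toAffine.Point ∧ RankConjecture E ∧ EntirePart E M ∧
    ShaBound E n

/-- The statement for `E_D` over the number fields `L = K(√d_1, …, √d_n)`. -/
def OverExtensions {K : Type} [Field K] [NumberField K] {n : ℕ} (d : Fin n → 𝓞 K) (D : 𝓞 K) : Prop :=
  ∀ (L : Type) [Field L] [NumberField L] [Algebra K L] (x : Fin n → L),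
    (∀ i, x i ^ 2 = algebraMap K L (d i)) → IntermediateField.adjoin K (Set.range x) = ⊤ →
    Conclusion K n (algebraMap (𝓞 K) (𝓞 L) (14 * D * ∏ i, d i)) (curve (algebraMap K L D))

/-- No nonempty product of some of the `d i` is a square in `K`. -/
def Independent {K : Type} [Field K] {n : ℕ} (d : Fin n → 𝓞 K) : Prop :=
  ∀ T : Finset (Fin n), T.Nonempty → ¬ IsSquare (∏ i ∈ T, (d i : K))

/-- The `D` of the family with `AllNoSelmer`. -/
def goodSet {K : Type} [Field K] [NumberField K] (a : 𝓞 K) {n : ℕ} (d : Fin n → 𝓞 K) (X : ℕ) :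
    Set (𝓞 K) :=
  {D ∈ family a d X | AllNoSelmer a d D}

/-- The product `(1 - 1/2) (1 - 1/4) (1 - 1/8) ⋯`. -/
noncomputable def c2 : ℝ := ∏' i : ℕ, (1 - (1 / 2 : ℝ) ^ (i + 1))

section proof

open Filter
open Pool.Agent.R426
open Pool.Agent.R426.QM
open Pool.Agent.Results.MP_e996df_nt

variable {K : Type} [Field K] [NumberField K]

open scoped Classical in
lemma twoPart_iff {a : 𝓞 K} (ha : a ^ 2 = a - 2) (hK : Module.finrank ℚ K = 2) {N : 𝓞 K}
    (hN : InClass a N) : TwoPartTwistsX49.TwoPart (TwoPartTwistsX49.curve (N : K)) ↔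
      NoSelmer (curve (N : K)) := by
  obtain ⟨S, -, -, hC⟩ := TwoPartTwistsX49.criterion ha hK hN.2.1 hN.1 hN.2.2
  exact hC.iff.trans hC.2.1.symm

lemma all_iff {a : 𝓞 K} (ha : a ^ 2 = a - 2) (hK : Module.finrank ℚ K = 2) {n : ℕ}
    (d : Fin n → 𝓞 K) (D : 𝓞 K) : AllNoSelmer a d D ↔ AllT a d D :=
  forall_congr' fun _ => forall_congr' fun _ => forall_congr' fun _ =>
    forall_congr' fun hN => forall_congr' fun _ => forall_congr' fun _ =>
      (twoPart_iff ha hK hN).symm

/-- the proportion -/
theorem proportion {a : 𝓞 K} (ha : a ^ 2 = a - 2) (hK : Module.finrank ℚ K = 2) {n : ℕ}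
    (d : Fin n → 𝓞 K) (hd : ∀ i, InClass a (d i)) (hind : Independent d) :
    Tendsto (fun X : ℕ => ((goodSet a d X).ncard : ℝ) / ((family a d X).ncard : ℝ)) atTop
      (nhds (c2 ^ (2 ^ n))) ∧
    ∃ δ : ℝ, 0 < δ ∧ ∀ᶠ X : ℕ in atTop, δ * X ≤ ((goodSet a d X).ncard : ℝ) := by
  have h := densK QJ.t_DQJ QM.Cls.t_CLS QM.Cls.t_MUL ha hK d hd hind QJ.LOW.t_LOWJ QK.MOM.t_C2
  have e : ∀ X : ℕ, goodSet a d X = {D ∈ fam a d X | AllT a d D} := by
    intro X
    ext D
    exact and_congr Iff.rfl (all_iff ha hK d D)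
  simp only [e]
  exact h

open scoped Classical in
/-- the classes of the products -/
theorem classes {a : 𝓞 K} (ha : a ^ 2 = a - 2) (hK : Module.finrank ℚ K = 2) {n : ℕ}
    (d : Fin n → 𝓞 K) (hd : ∀ i, InClass a (d i)) (hind : Independent d)
    {D : 𝓞 K} (hD : InClass a D) (hc : ∀ i, IsCoprime D (d i)) (T : Finset (Fin n)) :
    ∃ N c : 𝓞 K, InClass a N ∧ c ≠ 0 ∧ D * ∏ i ∈ T, d i = N * c ^ 2 := by
  obtain ⟨e, hea, hef⟩ := TwoPartTwistsX49.exists_e ha hK
  have hd' : ∀ i, QK.ClsE (e.symm (d i)) := fun i =>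
    (TwoPartTwistsX49.cls_e e hef _).1 (by rw [e.apply_symm_apply]; exact hd i)
  have hM : QK.ClsE (e.symm D) :=
    (TwoPartTwistsX49.cls_e e hef _).1 (by rw [e.apply_symm_apply]; exact hD)
  obtain ⟨N, hN1, hN2, -, hN4, hN5⟩ := QM.Cls.t_CLS n (fun i => e.symm (d i)) hd' (indR_of e hind)
  have hcM : ∀ i, IsCoprime (e.symm D) (e.symm (d i)) := fun i => by
    rw [← cop_e, e.apply_symm_apply]
    exact hc i
  obtain ⟨c, hc0, h1, -⟩ := hN4 T
  refine ⟨e (e.symm D * N T), e c, ?_, (map_ne_zero_iff e e.injective).2 hc0, ?_⟩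
  · refine (TwoPartTwistsX49.cls_e e hef _).2 ?_
    refine (QM.Cls.t_MUL.1 (e.symm D) (N T) hM (hN1 T) fun z hz h1 h2 => ?_).1
    obtain ⟨i, hi⟩ := hN5 T z hz h2
    exact (QM.cop_iff' (QM.cls_ne hM)).1 (hcM i) z hz h1 hi
  · have h2 := congrArg e h1
    rw [map_prod, map_mul, map_pow] at h2
    simp only [e.apply_symm_apply] at h2
    rw [h2, map_mul, e.apply_symm_apply]
    ring

/-- the extensions -/
theorem extension {a : 𝓞 K} (ha : a ^ 2 = a - 2) (hK : Module.finrank ℚ K = 2) {n : ℕ}
    (d : Fin n → 𝓞 K) (hd : ∀ i, InClass a (d i)) (hind : Independent d)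
    {D : 𝓞 K} (hD : InClass a D) (hc : ∀ i, IsCoprime D (d i)) (hA : AllNoSelmer a d D) :
    OverExtensions d D := by
  intro L _ _ _ x hx hL
  classical
  have hD0 : (D : K) ≠ 0 := fun h => hD.1.ne_zero (by exact_mod_cast h)
  have hDL : algebraMap K L (D : K) ≠ 0 := (map_ne_zero _).2 hD0
  obtain ⟨-, h1⟩ := overL QM.Split.t_SPLIT QM.t_TR (QM.FS.t_FS QM.Fin.t_FIN) QM.Cls.t_CLS
    QM.Cls.t_MUL ha hK d hd hind hD hc ((all_iff ha hK d D).1 hA)
  obtain ⟨h2, h3, F, hF⟩ := h1 L x hx hL
  have hdeg := QM.deg (fun i => ((d i : 𝓞 K) : K))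
    (fun i h => (hd i).1.ne_zero (by exact_mod_cast h)) hind x hx hL
  obtain ⟨J, hJ⟩ := hD.2.1
  have hJ' : algebraMap (𝓞 K) (𝓞 L) D = 1 + 4 * algebraMap (𝓞 K) (𝓞 L) J := by
    have : D = 1 + 4 * J := by linear_combination hJ
    rw [this, map_add, map_mul, map_one, map_ofNat]
  have hM : algebraMap (𝓞 K) (𝓞 L) (14 * D * ∏ i, d i) ≠ 0 := by
    have hinj : Function.Injective (algebraMap (𝓞 K) (𝓞 L)) :=
      FaithfulSMul.algebraMap_injective _ _
    rw [map_ne_zero_iff _ hinj]
    exact mul_ne_zero (mul_ne_zero (by norm_num) hD.1.ne_zero)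
      (Finset.prod_ne_zero_iff.2 fun i _ => (hd i).1.ne_zero)
  have hDM : 14 * algebraMap (𝓞 K) (𝓞 L) D ∣ algebraMap (𝓞 K) (𝓞 L) (14 * D * ∏ i, d i) := by
    rw [map_mul (algebraMap (𝓞 K) (𝓞 L)) (14 * D), map_mul (algebraMap (𝓞 K) (𝓞 L)) 14,
      map_ofNat]
    exact dvd_mul_right _ _
  have hcoe : ((algebraMap (𝓞 K) (𝓞 L) D : 𝓞 L) : L) = algebraMap K L (D : K) := by
    show algebraMap (𝓞 L) L (algebraMap (𝓞 K) (𝓞 L) D) = algebraMap K L (algebraMap (𝓞 K) K D)
    rw [← IsScalarTower.algebraMap_apply (𝓞 K) (𝓞 L) L,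
      ← IsScalarTower.algebraMap_apply (𝓞 K) K L]
  obtain ⟨g1, g2, S, g3, g4⟩ := fullL hJ' hM hDM hF
  rw [hcoe] at g1 g2 g4
  have h2' : Finite (curve (algebraMap K L (D : K))).toAffine.Point := h2
  refine ⟨hdeg, h2', ⟨?_, ?_⟩, ⟨F, S, hF.1, hF.2.1, g3, g4⟩, ⟨QM.ShF.sha_fin hDL h3, h3⟩⟩
  · obtain ⟨G, hG1, hG2⟩ := g1
    exact ⟨G, hG1, hG2⟩
  · intro G hG
    have h5 : Module.finrank ℤ (curve (algebraMap K L (D : K))).toAffine.Point = 0 := by
      unfold Module.finrank
      rw [Pool.Agent.R308.QMFin.rank_of_fin h2', Cardinal.zero_toNat]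
    rw [h5]
    exact g2 G hG.1 fun s hs => (hG.2 s hs).2

end proof

/-- **Main theorem.** Let `K = ℚ(√-7)`, that is, a number field of degree two with an integer `a` such
that `a² = a - 2`, and let `d_1, …, d_n` be squarefree integers of `K`, congruent to `1` modulo `4` and
prime to `√-7 = 2 a - 1`, such that no nonempty product of some of them is a square in `K`.
(1) For every `D` with the same properties, prime to the `d_i`: each product of `D` with some of the `d_i`
is in the same class up to squares. If `NoSelmer` (on the side of algebra only) holds for the twists by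
these `2 ^ n` products, then for `L = K(√d_1, …, √d_n)`, of degree `2 ^ n` over `K`: the group `E_D(L)` is
finite, the rank conjecture holds for `E_D` over `L`, a product of `L(E_D/L, s)` and finitely many
Euler polynomials is entire and not zero at `1`, and the 2-primary part of `Ш(E_D/L)` is finite and
killed by `2 ^ n`.
(2) The hypothesis in (1) holds for a proportion of exactly `c2 ^ (2 ^ n)` of the `D`, ordered by the norm,
where `0.288 < c2 < 0.289`, and for at least `δ X` of the `D` of norm at most `X`, for all large `X`. -/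
theorem result (K : Type) [Field K] [NumberField K] (a : 𝓞 K) (ha : a ^ 2 = a - 2)
    (hK : Module.finrank ℚ K = 2) (n : ℕ) (d : Fin n → 𝓞 K) (hd : ∀ i, InClass a (d i))
    (hind : Independent d) :
    (∀ D : 𝓞 K, InClass a D → (∀ i, IsCoprime D (d i)) →
      (∀ T : Finset (Fin n), ∃ N c : 𝓞 K, InClass a N ∧ c ≠ 0 ∧ D * ∏ i ∈ T, d i = N * c ^ 2) ∧
      (AllNoSelmer a d D → OverExtensions d D)) ∧
    Filter.Tendsto (fun X : ℕ => ((goodSet a d X).ncard : ℝ) / ((family a d X).ncard : ℝ))
      Filter.atTop (nhds (c2 ^ (2 ^ n))) ∧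
    0.288 < c2 ∧ c2 < 0.289 ∧
    ∃ δ : ℝ, 0 < δ ∧ ∀ᶠ X : ℕ in Filter.atTop, δ * X ≤ ((goodSet a d X).ncard : ℝ) := by
  obtain ⟨-, -, -, h3, h4⟩ := Pool.Agent.R426.QK.MOM.t_C2
  obtain ⟨h1, h2⟩ := proportion ha hK d hd hind
  exact ⟨fun D hD hc => ⟨fun T => classes ha hK d hd hind hD hc T, fun hA =>
    extension ha hK d hd hind hD hc hA⟩, h1, h3, h4, h2⟩

end Pool.Agent.Results.MP_cd906c_nt.MultiquadraticX49
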